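import Pool.Agent.helper73.SHL.Spec

/-!
# shl, row RLT: a real representation in degree three
-/

set_option autoImplicit false

namespace Pool.Agent.SHL

open Matrix Module Pool.Agent.PR

/-- a number field of degree three has a real embedding -/
theorem RLT_real (K : Type) [Field K] [NumberField K] (h : finrank ℚ K = 3) :
    Nonempty (K →+* ℝ) := by
  classical
  have h1 := NumberField.InfinitePlace.card_add_two_mul_card_eq_rank K
  rw [h] at h1
  have h2 : 0 < NumberField.InfinitePlace.nrRealPlaces K := by omega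
  unfold NumberField.InfinitePlace.nrRealPlaces at h2
  obtain ⟨⟨w, hw⟩⟩ := Fintype.card_pos_iff.1 h2
  exact ⟨NumberField.InfinitePlace.embedding_of_isReal hw⟩

/-- right multiplication is linear for a left module structure given by a ring homomorphism -/
theorem RLT_rep (D : Type) [DivisionRing D] (K : Type) [Field K] (j : K →+* D)
    (τ : K →+* ℝ)
    (h3 : @finrank K D _ _ (Module.compHom D j) = 3) :
    Nonempty (D →+* Matrix (Fin 3) (Fin 3) ℝ) := by
  letI : Module K D := Module.compHom D j
  have hsm : ∀ (k : K) (v : D), k • v = j k * v := fun k v => rfl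
  haveI : Module.Finite K D := Module.finite_of_finrank_pos (by rw [h3]; norm_num)
  let b : Basis (Fin 3) K D := Module.finBasisOfFinrankEq K D h3
  let RM : D → (D →ₗ[K] D) := fun d =>
    { toFun := fun v => v * d
      map_add' := fun v w => add_mul v w d
      map_smul' := fun k v => by
        simp only [RingHom.id_apply, hsm, mul_assoc] }
  have hRM : ∀ d v, RM d v = v * d := fun d v => rfl
  refine ⟨{ toFun := fun d => ((LinearMap.toMatrix b b (RM d))ᵀ).map τ, map_one' := ?_,
            map_mul' := ?_, map_zero' := ?_, map_add' := ?_ }⟩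
  · have h1 : RM 1 = LinearMap.id := by
      ext v
      simp [hRM]
    rw [h1, LinearMap.toMatrix_id, transpose_one, Matrix.map_one _ (map_zero τ) (map_one τ)]
  · intro x y
    have h1 : RM (x * y) = (RM y).comp (RM x) := by
      ext v
      simp [hRM, mul_assoc]
    show ((LinearMap.toMatrix b b (RM (x * y)))ᵀ).map τ = ((LinearMap.toMatrix b b (RM x))ᵀ).map τ *
      ((LinearMap.toMatrix b b (RM y))ᵀ).map τ
    rw [h1, LinearMap.toMatrix_comp b b b, transpose_mul, Matrix.map_mul]
  · have h1 : RM 0 = 0 := by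
      ext v
      simp [hRM]
    show ((LinearMap.toMatrix b b (RM 0))ᵀ).map τ = 0
    rw [h1, map_zero, transpose_zero]
    exact Matrix.map_zero _ (map_zero τ)
  · intro x y
    have h1 : RM (x + y) = RM x + RM y := by
      ext v
      simp [hRM, mul_add]
    show ((LinearMap.toMatrix b b (RM (x + y)))ᵀ).map τ = ((LinearMap.toMatrix b b (RM x))ᵀ).map τ +
      ((LinearMap.toMatrix b b (RM y))ᵀ).map τ
    rw [h1, map_add, transpose_add]
    exact Matrix.map_add _ (map_add τ) _ _

theorem RLT : RLT_stmt := by
  intro D _ _ _ hcen h9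
  -- an element outside of `ℚ`
  obtain ⟨x, hx⟩ : ∃ x : D, x ∉ (algebraMap ℚ D).range := by
    by_contra hcon
    push Not at hcon
    have hsurj : Function.Surjective (Algebra.linearMap ℚ D) := by
      intro y
      obtain ⟨q, hq⟩ := hcon y
      exact ⟨q, hq⟩
    have hinj : Function.Injective (Algebra.linearMap ℚ D) := (algebraMap ℚ D).injective
    have h1 := (LinearEquiv.ofBijective (Algebra.linearMap ℚ D) ⟨hinj, hsurj⟩).finrank_eq
    rw [h9, finrank_self] at h1
    norm_num at h1
  have hint : IsIntegral ℚ x := Algebra.IsIntegral.isIntegral x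
  have hirr : Irreducible (minpoly ℚ x) := minpoly.irreducible hint
  haveI : Fact (Irreducible (minpoly ℚ x)) := ⟨hirr⟩
  let K := AdjoinRoot (minpoly ℚ x)
  have hne : minpoly ℚ x ≠ 0 := minpoly.ne_zero hint
  haveI : FiniteDimensional ℚ K := (AdjoinRoot.powerBasis hne).finite
  haveI : CharZero K := charZero_of_injective_algebraMap (algebraMap ℚ K).injective
  haveI : NumberField K := ⟨⟩
  -- the homomorphism `K → D`
  let j : K →+* D := Ideal.Quotient.lift (Ideal.span {minpoly ℚ x})
    ((Polynomial.aeval x : Polynomial ℚ →ₐ[ℚ] D) : Polynomial ℚ →+* D) (by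
      intro a ha
      obtain ⟨c, rfl⟩ := Ideal.mem_span_singleton.1 ha
      simp)
  letI : Module K D := Module.compHom D j
  have hsm : ∀ (k : K) (v : D), k • v = j k * v := fun k v => rfl
  haveI : IsScalarTower ℚ K D := by
    refine ⟨fun q k v => ?_⟩
    rw [hsm, hsm, map_rat_smul j q k, smul_mul_assoc]
  haveI : Module.Finite K D := Module.Finite.of_restrictScalars_finite ℚ K D
  have hmul := Module.finrank_mul_finrank ℚ K D
  rw [h9] at hmul
  have hfK : finrank ℚ K = (minpoly ℚ x).natDegree := by
    rw [(AdjoinRoot.powerBasis hne).finrank, AdjoinRoot.powerBasis_dim]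
  have hK1 : finrank ℚ K ≠ 1 := by
    intro h1
    rw [hfK] at h1
    exact hx ((minpoly.natDegree_eq_one_iff).1 h1)
  have hD1 : finrank K D ≠ 1 := by
    intro h1
    have h2 : ∀ w : D, ∃ c : K, c • (1 : D) = w :=
      (finrank_eq_one_iff_of_nonzero' (1 : D) one_ne_zero).1 h1
    have hcomm : ∀ y : D, x * y = y * x := by
      intro y
      obtain ⟨a, ha⟩ := h2 x
      obtain ⟨c, hc⟩ := h2 y
      rw [hsm, mul_one] at ha hc
      rw [← ha, ← hc, ← map_mul, ← map_mul, mul_comm]
    have hmem : x ∈ Subalgebra.center ℚ D := by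
      rw [Subalgebra.mem_center_iff]
      intro y
      exact (hcomm y).symm
    have h3 := hcen.out hmem
    obtain ⟨q, hq⟩ := Algebra.mem_bot.1 h3
    exact hx ⟨q, hq⟩
  have h33 : finrank ℚ K = 3 ∧ finrank K D = 3 := by
    have hdvd : finrank ℚ K ∣ 9 := ⟨_, hmul.symm⟩
    have hle : finrank ℚ K ≤ 9 := Nat.le_of_dvd (by norm_num) hdvd
    have hle2 : finrank K D ≤ 9 := Nat.le_of_dvd (by norm_num) ⟨_, by rw [mul_comm]; exact hmul.symm⟩
    generalize finrank ℚ K = m at *
    generalize finrank K D = k at *
    interval_cases m <;> omega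
  obtain ⟨τ⟩ := RLT_real K h33.1
  exact RLT_rep D K j τ h33.2

end Pool.Agent.SHL
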